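import Pool.Agent.Helper49.LC.St

/-!
# Project LC, module C2I: a limit of unknots is invertible
-/

set_option autoImplicit false

open scoped ContDiff

namespace Pool.Agent.Helper12.LC

open Pool.Agent.Helper14.LK Pool.Agent.Helper49.LC
open Pool.Agent.Helper14.LE (StIET)

private theorem fd_comp {n : ℕ} {W : WW n → WW n} {f : EE n → WW n} (hW : ContDiff ℝ ∞ W)
    (hf : ContDiff ℝ ∞ f) (x u : EE n) :
    fderiv ℝ (fun y => W (f y)) x u = fderiv ℝ W (f x) (fderiv ℝ f x u) := by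
  have h1 : HasFDerivAt W (fderiv ℝ W (f x)) (f x) :=
    (hW.differentiable (by simp) (f x)).hasFDerivAt
  have h2 : HasFDerivAt f (fderiv ℝ f x) x := (hf.differentiable (by simp) x).hasFDerivAt
  have h3 := (h1.comp x h2).fderiv
  have h4 : (fun y => W (f y)) = W ∘ f := rfl
  rw [h4, h3]
  rfl

/-- isotropic embeddings in the region where `W` is symplectic -/
private theorem push {n : ℕ} {W : WW n → WW n} {δ : ℝ} (hW : ContDiff ℝ ∞ W)
    (hinj : Set.InjOn W {w | ‖w.2‖ < δ})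
    (hsy : ∀ w : WW n, ‖w.2‖ < δ → ∀ a b, om (fderiv ℝ W w a) (fderiv ℝ W w b) = om a b)
    (hker : ∀ w : WW n, ‖w.2‖ < δ → ∀ a, fderiv ℝ W w a = 0 → a = 0)
    {f : EE n → WW n} (hf : ContDiff ℝ ∞ f) (hU : ∀ x, ‖(f x).2‖ < δ) :
    (Isotropic f ↔ Isotropic (fun x => W (f x))) ∧ (Immersive f ↔ Immersive (fun x => W (f x))) ∧
      (Function.Injective f ↔ Function.Injective (fun x => W (f x))) := by
  refine ⟨⟨?_, ?_⟩, ⟨?_, ?_⟩, ⟨?_, ?_⟩⟩
  · intro h x u v
    rw [fd_comp hW hf, fd_comp hW hf, hsy _ (hU x)]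
    exact h x u v
  · intro h x u v
    have := h x u v
    rw [fd_comp hW hf, fd_comp hW hf, hsy _ (hU x)] at this
    exact this
  · intro h x u hu
    rw [fd_comp hW hf] at hu
    exact h x u (hker _ (hU x) _ hu)
  · intro h x u hu
    apply h x u
    rw [fd_comp hW hf, hu, map_zero]
  · intro h x y hxy
    exact h (hinj (hU x) (hU y) hxy)
  · intro h x y hxy
    exact h (congrArg W hxy)

/-- translated copies -/
private theorem shift {n : ℕ} {β : EE n → WW n} (hβ : ContDiff ℝ ∞ β) (a : EE n) :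
    ContDiff ℝ ∞ (fun x => ((a, 0) : WW n) + β (x - a)) ∧
      (Isotropic β → Isotropic (fun x => ((a, 0) : WW n) + β (x - a))) ∧
      (Immersive β → Immersive (fun x => ((a, 0) : WW n) + β (x - a))) ∧
      (Function.Injective β → Function.Injective (fun x => ((a, 0) : WW n) + β (x - a))) := by
  have hfd : ∀ x u, fderiv ℝ (fun x => ((a, 0) : WW n) + β (x - a)) x u = fderiv ℝ β (x - a) u := by
    intro x u
    have h1 : HasFDerivAt β (fderiv ℝ β (x - a)) (x - a) :=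
      (hβ.differentiable (by simp) (x - a)).hasFDerivAt
    have h2 : HasFDerivAt (fun x : EE n => x - a) (ContinuousLinearMap.id ℝ (EE n)) x :=
      (hasFDerivAt_id x).sub_const a
    have h3 := (h1.comp x h2).const_add ((a, 0) : WW n)
    have h4 := h3.fderiv
    have h5 : (fun x => ((a, 0) : WW n) + β (x - a)) =
        (fun x => ((a, 0) : WW n) + (β ∘ fun x : EE n => x - a) x) := rfl
    rw [h5, h4]
    rfl
  refine ⟨contDiff_const.add (hβ.comp (contDiff_id.sub contDiff_const)), ?_, ?_, ?_⟩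
  · intro h x u v
    rw [hfd, hfd]
    exact h _ u v
  · intro h x u hu
    rw [hfd] at hu
    exact h _ u hu
  · intro h x y hxy
    have h1 : β (x - a) = β (y - a) := add_left_cancel hxy
    have h2 := h h1
    exact sub_left_injective h2

theorem hC2I (hWE1 : StWE1) (hWE2 : StWE2) (hWE3 : StWE3) (hSIN : StSIN) (hIET : StIET)
    (hKNB : StKNB) (hEQV : StEQV) : StC2I := by
  intro n hn ι hιs hιi hιm hιj hιst hlim
  have hιst' := hιst
  obtain ⟨R, hR⟩ := hιst
  obtain ⟨W, R', δ₀, hδ₀, hR'0, hRR', hW, hW0, hWfar, hWsy⟩ := hWE1 n hn ι R hιs hιi hιm hR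
  obtain ⟨δ, hδ, hδδ, hWinj⟩ := hWE2 n ι W R' δ₀ hδ₀ hW hιj hW0 hWfar hWsy
  have hsy : ∀ w : WW n, ‖w.2‖ < δ → ∀ a b, om (fderiv ℝ W w a) (fderiv ℝ W w b) = om a b :=
    fun w hw => hWsy w (hw.trans_le hδδ)
  obtain ⟨ε, hε, hcov⟩ := hWE3 n ι W R' δ hδ hW hWinj hW0 hWfar hsy
  obtain ⟨κ, hκs, hκi, hκm, hκj, hκst, hκham, hκnear⟩ := hlim ε hε
  have hker : ∀ w : WW n, ‖w.2‖ < δ → ∀ a, fderiv ℝ W w a = 0 → a = 0 := by
    intro w hw a ha
    apply eq_of_om_eq
    intro c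
    rw [← hsy w hw a c, ha, om_zero_left, om_zero_left]
  have hUo : IsOpen {w : WW n | ‖w.2‖ < δ} :=
    isOpen_lt (continuous_norm.comp continuous_snd) continuous_const
  obtain ⟨-, Wi, hWi, hWis⟩ := hSIN (WW n) W {w | ‖w.2‖ < δ} hW hUo hWinj
    (fun w hw a ha => hker w hw a ha)
  -- the pulled back knot
  obtain ⟨β, hβ⟩ : ∃ β : EE n → WW n, β = fun x => Wi (κ x) := ⟨_, rfl⟩
  have hβp : ∀ x, ‖(β x).2‖ < δ ∧ W (β x) = κ x := by
    intro x
    obtain ⟨w', hw', hWw'⟩ := hcov (κ x) (hκnear x)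
    have h1 : β x = w' := by
      rw [hβ]
      simp only
      rw [← hWw']
      exact hWi w' hw'
    rw [h1]
    exact ⟨hw', hWw'⟩
  have hβs : ContDiff ℝ ∞ β := by
    rw [contDiff_iff_contDiffAt]
    intro x
    have h1 := hWis (β x) (hβp x).1
    rw [(hβp x).2] at h1
    rw [hβ]
    exact h1.comp x hκs.contDiffAt
  have hκW : (fun x => W (β x)) = κ := funext fun x => (hβp x).2
  have hpush := push hW hWinj hsy hker hβs (fun x => (hβp x).1)
  rw [hκW] at hpush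
  have hβi : Isotropic β := hpush.1.2 hκi
  have hβm : Immersive β := hpush.2.1.2 hκm
  have hβj : Function.Injective β := hpush.2.2.2 hκj
  have hβst : StdInfty β := by
    obtain ⟨Rκ, hRκ⟩ := hκst
    refine ⟨max Rκ R', fun x hx => ?_⟩
    have h1 : W (β x) = (x, 0) := by rw [(hβp x).2]; exact hRκ x ((le_max_left _ _).trans hx)
    have h2 : W (x, 0) = (x, 0) := hWfar (x, 0) ((le_max_right _ _).trans hx)
    exact hWinj (hβp x).1 (by simpa using hδ) (h1.trans h2.symm)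
  obtain ⟨R1, hR1⟩ := hKNB.1 n ι hιs hιi hιm hιj hιst'
  obtain ⟨R2, hR2⟩ := hKNB.1 n β hβs hβi hβm hβj hβst
  obtain ⟨S, hS⟩ : ∃ S : ℝ, S = max R' (max R1 R2) := ⟨_, rfl⟩
  have hSR' : R' ≤ S := by rw [hS]; exact le_max_left _ _
  have hKι : Kn ι 0 S := hR1 S (by rw [hS]; exact (le_max_left _ _).trans (le_max_right _ _))
  have hKβ : Kn β 0 S := hR2 S (by rw [hS]; exact (le_max_right _ _).trans (le_max_right _ _))
  have hS0 : 0 < S := hR'0.trans_le hSR'
  have hβfar : ∀ y : EE n, S ≤ ‖y‖ → β y = (y, 0) := fun y hy => hKβ.far y (by rwa [sub_zero])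
  have hβnear : ∀ y : EE n, ‖y‖ ≤ S → ‖β y‖ ≤ S := by
    intro y hy
    have := hKβ.near y (by rwa [sub_zero])
    rwa [show ((0 : EE n), (0 : EE n)) = (0 : WW n) from rfl, sub_zero] at this
  have hιfar : ∀ y : EE n, S ≤ ‖y‖ → ι y = (y, 0) := fun y hy => hKι.far y (by rwa [sub_zero])
  obtain ⟨a, ha⟩ : ∃ a : EE n, ‖a‖ = 2 * S + R' + 1 := by
    refine ⟨(2 * S + R' + 1) • EuclideanSpace.single (⟨0, by omega⟩ : Fin n) (1 : ℝ), ?_⟩
    rw [norm_smul, PiLp.norm_single, norm_one, mul_one, Real.norm_eq_abs,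
      abs_of_pos (by linarith)]
  -- the isotopy
  obtain ⟨J, hJ⟩ : ∃ J : ℝ → EE n → WW n,
    J = fun t x => W (((t • a, 0) : WW n) + β (x - t • a)) := ⟨_, rfl⟩
  have hγU : ∀ (t : ℝ) (x : EE n), ‖((((t • a, 0) : WW n) + β (x - t • a))).2‖ < δ := by
    intro t x
    rw [Prod.snd_add, zero_add]
    exact (hβp _).1
  have hJs : ContDiff ℝ ∞ (Function.uncurry J) := by
    have h0 : ContDiff ℝ ∞ (fun p : ℝ × EE n => p.1 • a) := contDiff_fst.smul contDiff_const
    have h1 : ContDiff ℝ ∞ (fun p : ℝ × EE n => ((p.1 • a, 0) : WW n)) :=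
      h0.prodMk contDiff_const
    have h2 : ContDiff ℝ ∞ (fun p : ℝ × EE n => β (p.2 - p.1 • a)) :=
      hβs.comp (contDiff_snd.sub h0)
    have h3 : ContDiff ℝ ∞ (fun p : ℝ × EE n =>
        W (((p.1 • a, 0) : WW n) + β (p.2 - p.1 • a))) := hW.comp (h1.add h2)
    rw [hJ]
    exact h3
  have hJt : ∀ t : ℝ, Isotropic (J t) ∧ Immersive (J t) ∧ Function.Injective (J t) := by
    intro t
    obtain ⟨s1, s2, s3, s4⟩ := shift hβs (t • a)
    have h1 := push hW hWinj hsy hker s1 (hγU t)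
    rw [hJ]
    exact ⟨h1.1.1 (s2 hβi), h1.2.1.1 (s3 hβm), h1.2.2.1 (s4 hβj)⟩
  have hJfar : ∀ t ∈ Set.Icc (0 : ℝ) 1, ∀ x : EE n, S + ‖a‖ ≤ ‖x‖ → J t x = (x, 0) := by
    intro t ht x hx
    have h1 : ‖t • a‖ ≤ ‖a‖ := by
      rw [norm_smul, Real.norm_eq_abs, abs_of_nonneg ht.1]
      exact mul_le_of_le_one_left (norm_nonneg a) ht.2
    have h2 : S ≤ ‖x - t • a‖ := by
      have := norm_sub_norm_le x (t • a)
      linarith
    rw [hJ]
    simp only
    rw [hβfar _ h2, Prod.mk_add_mk, add_sub_cancel, add_zero]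
    exact hWfar (x, 0) (by
      show R' ≤ ‖x‖
      have := norm_nonneg a
      linarith)
  have hham := hIET n hn J (S + ‖a‖) hJs (fun t _ => (hJt t).1) (fun t _ => (hJt t).2.1)
    (fun t _ => (hJt t).2.2) hJfar
  have hJ0 : J 0 = κ := by
    funext x
    rw [hJ]
    simp only
    rw [zero_smul, sub_zero, show ((0 : EE n), (0 : EE n)) = (0 : WW n) from rfl, zero_add]
    exact (hβp x).2
  have hJ1 : J 1 = su ι (pc a 1 β) := by
    funext x
    rw [hJ]
    simp only [su, pc, one_smul, inv_one]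
    rcases le_or_gt S ‖x - a‖ with h | h
    · rw [hβfar _ h, Prod.mk_add_mk, add_sub_cancel, add_zero, hW0, add_sub_cancel_right]
    · have h1 := norm_sub_norm_le a x
      rw [norm_sub_rev] at h1
      have h2 : S ≤ ‖x‖ := by linarith
      rw [hιfar x h2, add_sub_cancel_left]
      apply hWfar
      rw [Prod.fst_add]
      have h3 := (norm_fst_le _).trans (hβnear _ h.le)
      have h4 := norm_sub_norm_le a (-(β (x - a)).1)
      rw [norm_neg, sub_neg_eq_add] at h4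
      show R' ≤ ‖a + (β (x - a)).1‖
      linarith
  rw [hJ0, hJ1] at hham
  have hn1 : 1 ≤ n := by omega
  have e1 := (hEQV.1 n hn1 _ _).1 hκham
  have e2 := (hEQV.1 n hn1 _ _).1 hham
  exact ⟨ι, β, S, a, rfl, hKι, hKβ, by rw [ha]; linarith, hEQV.2.2.2.1 n _ _ _ e1 e2⟩

end Pool.Agent.Helper12.LC
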